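import Pool.Agent.H41.WC.Defs
import Pool.Agent.H41.WC.Final

namespace Pool.Agent.Results.MP_6c3571_pr.NoWeightedCheegerBound

open Pool.Agent.H41.WC
open scoped ENNReal NNReal

/-- For every real `C` there are an infinite connected locally finite graph `G` and a closed
subgroup `Γ` of its automorphism group acting transitively on the vertices such that
`p_h(G, Γ) > C / (Φ + 1)`, where `Φ` is the weighted vertex Cheeger constant. -/
theorem result (C : ℝ) : ∃ (V : Type) (G : SimpleGraph V) (Γ : Subgroup (G ≃g G)),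
    Infinite V ∧ G.Connected ∧ (∀ v, (G.neighborSet v).Finite) ∧
    IsClosedInAut Γ ∧ (∀ x y, ∃ γ ∈ Γ, γ x = y) ∧
    ∀ o, cheeger Γ o ≠ ∞ ∧ C / ((cheeger Γ o).toReal + 1) < pHeavy Γ o := by
  obtain ⟨k, hk⟩ := exists_nat_gt (4 * |C|)
  have hk0 : (0 : ℝ) < k := lt_of_le_of_lt (by positivity) hk
  have hk1 : 1 ≤ k := by
    have : 0 < k := by exact_mod_cast hk0
    omega
  have : NeZero (2 * k ^ 2) := ⟨by positivity⟩
  let a₀ : Fin 2 := 0
  let b₀ : Fin (2 * k ^ 2) := 0
  have hκ : (1 : ℝ≥0) ≤ (k : ℝ≥0) := by exact_mod_cast hk1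
  have hcard : (Fintype.card (Fin (2 * k ^ 2)) : ℝ≥0) = (k : ℝ≥0) ^ 2 * Fintype.card (Fin 2) := by
    simp only [Fintype.card_fin]
    push_cast
    ring
  refine ⟨Vert a₀ b₀, tree a₀ b₀, parGroup a₀ b₀, infinite_vert a₀ b₀, connected_tree a₀ b₀,
    finite_neighborSet, isClosed_parGroup a₀ b₀, transitive_par' a₀ b₀, fun o => ?_⟩
  have h1 := le_cheeger hκ hcard (by simp) o
  have h2 := cheeger_ne_top hκ hcard o
  have h3 := le_pHeavy hκ hcard o
  refine ⟨h2, ?_⟩
  have h4 : (k : ℝ) ^ 2 + 1 ≤ (cheeger (parGroup a₀ b₀) o).toReal := by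
    have h := ENNReal.toReal_mono h2 h1
    rw [ENNReal.coe_toReal] at h
    push_cast at h
    exact h
  have h5 : C / ((cheeger (parGroup a₀ b₀) o).toReal + 1) ≤ |C| / ((k : ℝ) ^ 2 + 2) := by
    calc C / ((cheeger (parGroup a₀ b₀) o).toReal + 1)
        ≤ |C| / ((cheeger (parGroup a₀ b₀) o).toReal + 1) := by
          gcongr
          exact le_abs_self C
      _ ≤ |C| / ((k : ℝ) ^ 2 + 2) :=
          div_le_div_of_nonneg_left (abs_nonneg C) (by positivity) (by linarith)
  refine lt_of_le_of_lt h5 (lt_of_lt_of_le ?_ h3)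
  rw [div_lt_iff₀ (by positivity)]
  simp only [Fintype.card_fin, NNReal.coe_natCast, Nat.cast_ofNat]
  rw [inv_mul_eq_div, lt_div_iff₀ (by positivity)]
  nlinarith [abs_nonneg C]

end Pool.Agent.Results.MP_6c3571_pr.NoWeightedCheegerBound
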